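import Mathlib

set_option autoImplicit false

namespace Pool.Agent.P.MP_e983f0_al

open CategoryTheory Finset ComplexConjugate

theorem nat_avg {G H : Type} [Group G] [Group H] [Fintype H] (V : FDRep ℂ G) (φ : H →* G)
    (l : H →* ℂ) : ∃ m : ℕ, ∑ h, l h * V.character (φ h) = (Fintype.card H : ℂ) * m := by
  let σ : Representation ℂ H V :=
    { toFun := fun h => l h • V.ρ (φ h)
      map_one' := by simp
      map_mul' := by
        intro a b
        simp only [map_mul, smul_mul_smul_comm] }
  have hc : (Nat.card H : ℂ) ≠ 0 := by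
    have : Nat.card H ≠ 0 := Nat.card_pos.ne'
    exact_mod_cast this
  let _ : Invertible (Nat.card H : ℂ) := invertibleOfNonzero hc
  have h := Representation.card_inv_mul_sum_char_eq_finrank σ
  refine ⟨Module.finrank ℂ (Representation.invariants σ), ?_⟩
  rw [← h, ← mul_assoc, ← Nat.card_eq_fintype_card, mul_inv_cancel₀ hc, one_mul]
  refine Finset.sum_congr rfl fun x _ => ?_
  simp [σ, Representation.character, FDRep.character]

theorem char_inv_conj {G : Type} [Group G] [Fintype G] (V : FDRep ℂ G) (g : G) :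
    V.character g⁻¹ = conj (V.character g) := by
  set n := Fintype.card G with hn
  have : NeZero n := ⟨Fintype.card_ne_zero⟩
  have hg : g ^ n = 1 := pow_card_eq_one
  let φ : Multiplicative (ZMod n) →* G :=
    { toFun := fun a => g ^ (Multiplicative.toAdd a).val
      map_one' := by simp
      map_mul' := by
        intro a b
        rw [toAdd_mul, ZMod.val_add, ← pow_eq_pow_mod _ hg, pow_add] }
  have hφ1 : φ (Multiplicative.ofAdd 1) = g := by
    show g ^ ((1 : ZMod n)).val = g
    have : ((1 : ZMod n)).val = 1 % n := by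
      have := ZMod.val_natCast n 1
      simpa using this
    rw [this, ← pow_eq_pow_mod _ hg, pow_one]
  let Φ : ZMod n → ℂ := fun a => V.character (φ (Multiplicative.ofAdd a))
  have hm : ∀ j : ZMod n, ∃ m : ℕ, ZMod.dft Φ j = (n : ℂ) * m := by
    intro j
    let l : Multiplicative (ZMod n) →* ℂ :=
      { toFun := fun a => ZMod.stdAddChar (-(Multiplicative.toAdd a * j))
        map_one' := by simp
        map_mul' := by
          intro a b
          rw [toAdd_mul, add_mul, neg_add, AddChar.map_add_eq_mul] }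
    obtain ⟨m, hm⟩ := nat_avg V φ l
    refine ⟨m, ?_⟩
    rw [ZMod.dft_apply]
    simp only [Fintype.card_multiplicative, ZMod.card] at hm
    rw [← hm]
    exact (Equiv.sum_comp Multiplicative.ofAdd (fun a => l a * V.character (φ a))).symm ▸ rfl
  choose m hm using hm
  have hnz : (n : ℂ) ≠ 0 := by exact_mod_cast NeZero.ne n
  have key : ∀ s : ZMod n, Φ s = ∑ j, ZMod.stdAddChar (j * s) * (m j : ℂ) := by
    intro s
    have : Φ s = ZMod.dft.symm (ZMod.dft Φ) s := by simp
    rw [this, ZMod.invDFT_apply, smul_eq_mul, Finset.mul_sum]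
    refine Finset.sum_congr rfl fun j _ => ?_
    rw [hm, smul_eq_mul]
    field_simp
  have h1 : V.character g = Φ 1 := by simp only [Φ, hφ1]
  have h2 : V.character g⁻¹ = Φ (-1) := by
    simp only [Φ]
    rw [ofAdd_neg, map_inv, hφ1]
  rw [h1, h2, key, key, map_sum]
  refine Finset.sum_congr rfl fun j _ => ?_
  rw [mul_neg, AddChar.map_neg_eq_conj, map_mul (starRingEnd ℂ)]
  simp

/-- sesquilinear sum -/
noncomputable def ip {G : Type} [Fintype G] (a b : G → ℂ) : ℂ := ∑ g, conj (a g) * b g

theorem ip_self_eq_zero {G : Type} [Fintype G] (a : G → ℂ) (h : (ip a a).re ≤ 0) : a = 0 := by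
  have h1 : (ip a a).re = ∑ g, Complex.normSq (a g) := by
    simp only [ip, Complex.re_sum]
    refine Finset.sum_congr rfl fun g _ => ?_
    rw [mul_comm, Complex.mul_conj]
    simp
  rw [h1] at h
  have h2 : ∑ g, Complex.normSq (a g) = 0 :=
    le_antisymm h (Finset.sum_nonneg fun g _ => Complex.normSq_nonneg _)
  rw [Finset.sum_eq_zero_iff_of_nonneg (fun g _ => Complex.normSq_nonneg _)] at h2
  funext g
  exact Complex.normSq_eq_zero.mp (h2 g (Finset.mem_univ _))

theorem ip_conj {G : Type} [Fintype G] (a b : G → ℂ) : ip b a = conj (ip a b) := by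
  simp only [ip, map_sum, map_mul, Complex.conj_conj]
  exact Finset.sum_congr rfl fun g _ => mul_comm _ _

theorem ip_sub_left {G : Type} [Fintype G] (a b c : G → ℂ) : ip (a - b) c = ip a c - ip b c := by
  simp only [ip, Pi.sub_apply, map_sub, sub_mul, Finset.sum_sub_distrib]

theorem ip_sub_right {G : Type} [Fintype G] (a b c : G → ℂ) : ip c (a - b) = ip c a - ip c b := by
  simp only [ip, Pi.sub_apply, mul_sub, Finset.sum_sub_distrib]

theorem ip_sum_left {G I : Type} [Fintype G] (s : Finset I) (a : I → G → ℂ) (c : G → ℂ) :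
    ip (∑ i ∈ s, a i) c = ∑ i ∈ s, ip (a i) c := by
  simp only [ip, Finset.sum_apply, map_sum, Finset.sum_mul]
  exact Finset.sum_comm

theorem ip_sum_right {G I : Type} [Fintype G] (s : Finset I) (a : I → G → ℂ) (c : G → ℂ) :
    ip c (∑ i ∈ s, a i) = ∑ i ∈ s, ip c (a i) := by
  simp only [ip, Finset.sum_apply, Finset.mul_sum]
  exact Finset.sum_comm

theorem ip_smul_left {G : Type} [Fintype G] (d : ℕ) (a c : G → ℂ) :
    ip ((d : ℂ) • a) c = d * ip a c := by
  simp only [ip, Pi.smul_apply, smul_eq_mul, map_mul, Complex.conj_natCast, Finset.mul_sum,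
    mul_assoc]

theorem ip_smul_right {G : Type} [Fintype G] (d : ℕ) (a c : G → ℂ) :
    ip c ((d : ℂ) • a) = d * ip c a := by
  simp only [ip, Pi.smul_apply, smul_eq_mul, Finset.mul_sum]
  exact Finset.sum_congr rfl fun g _ => by ring

/-- An orthogonal family of the right total size which pairs integrally with an irreducible
character contains this character. -/
theorem mem_family {G I : Type} [Group G] [Fintype G] [DecidableEq G] [Fintype I] [DecidableEq I]
    (ψ : I → G → ℂ) (d : I → ℕ)
    (horth : ∀ i j, ip (ψ i) (ψ j) = if i = j then (Fintype.card G : ℂ) else 0)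
    (hd : ∀ i, ψ i 1 = d i) (hsum : ∑ i, d i ^ 2 = Fintype.card G)
    (V : FDRep ℂ G) [Simple V]
    (hint : ∀ i, ∃ m : ℕ, ip (ψ i) V.character = (Fintype.card G : ℂ) * m) :
    ∃ i, V.character = ψ i := by
  set N : ℂ := (Fintype.card G : ℂ) with hN
  have hN0 : N ≠ 0 := by
    rw [hN]; exact_mod_cast Fintype.card_ne_zero
  have hc : (Nat.card G : ℂ) ≠ 0 := by rwa [Nat.card_eq_fintype_card]
  let _ : Invertible (Nat.card G : ℂ) := invertibleOfNonzero hc
  have hnorm : ip V.character V.character = N := by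
    have h := FDRep.char_orthonormal V V
    rw [if_pos ⟨Iso.refl V⟩, Nat.card_eq_fintype_card, ← hN] at h
    have h' : ∑ g, V.character g * V.character g⁻¹ = N := by
      have := congrArg (fun x => N * x) h
      simpa [← mul_assoc, mul_inv_cancel₀ hN0] using this
    rw [← h', ip]
    exact Finset.sum_congr rfl fun g _ => by rw [char_inv_conj, mul_comm]
  let ρ : G → ℂ := fun g => if g = 1 then N else 0
  have hρ : ∀ a : G → ℂ, ip ρ a = N * a 1 := by
    intro a
    simp only [ip, ρ]
    rw [Finset.sum_eq_single 1]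
    · simp [hN]
    · intro b _ hb; simp [hb]
    · simp
  let τ : G → ℂ := ∑ i, (d i : ℂ) • ψ i
  have hS : ∑ i, (d i : ℂ) * d i = N := by
    rw [hN, ← hsum]; push_cast
    exact Finset.sum_congr rfl fun i _ => by ring
  have h1 : ip ρ τ = N * N := by
    rw [hρ]
    simp only [τ, Finset.sum_apply, Pi.smul_apply, smul_eq_mul, hd]
    rw [hS]
  have h2 : ip τ τ = N * N := by
    simp only [τ]
    rw [ip_sum_left]
    simp only [ip_smul_left, ip_sum_right, ip_smul_right, horth, mul_ite, mul_zero,
      Finset.sum_ite_eq, Finset.mem_univ, if_true]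
    rw [← hS, Finset.sum_mul]
    exact Finset.sum_congr rfl fun i _ => by rw [hS]; ring
  have hcN : conj N = N := by rw [hN]; simp
  have h3 : ρ - τ = 0 := by
    apply ip_self_eq_zero
    rw [ip_sub_left, ip_sub_right, ip_sub_right, ip_conj ρ τ, h1, h2, hρ]
    simp [ρ, hcN]
  have h4 : ρ = τ := sub_eq_zero.mp h3
  choose m hm using hint
  have h5 : ∃ i, m i ≠ 0 := by
    by_contra hcon
    push Not at hcon
    have h6 : ip τ V.character = 0 := by
      simp only [τ]
      rw [ip_sum_left]
      simp [ip_smul_left, hm, hcon]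
    rw [← h4, hρ, FDRep.char_one] at h6
    have h7 : Module.finrank ℂ V = 0 := by
      have := (mul_eq_zero.mp h6).resolve_left hN0
      exact_mod_cast this
    have h8 : ∀ g, V.character g = 0 := by
      intro g
      have : Subsingleton V := Module.finrank_zero_iff.mp h7
      have : V.ρ g = 0 := Subsingleton.elim _ _
      simp [FDRep.character, this]
    apply hN0
    rw [← hnorm]
    simp [ip, h8]
  obtain ⟨i, hi⟩ := h5
  refine ⟨i, sub_eq_zero.mp (ip_self_eq_zero _ ?_)⟩
  rw [ip_sub_left, ip_sub_right, ip_sub_right, ip_conj (ψ i) V.character, hm, horth, hnorm,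
    if_pos rfl, hN]
  have : (1 : ℝ) ≤ m i := by exact_mod_cast Nat.one_le_iff_ne_zero.mpr hi
  have hp : (0 : ℝ) ≤ Fintype.card G := Nat.cast_nonneg _
  simp
  nlinarith

/-- the standard additive character of order 32 -/
noncomputable def E (a : ZMod 32) : ℂ := ZMod.stdAddChar a

theorem E_add (a b : ZMod 32) : E (a + b) = E a * E b := AddChar.map_add_eq_mul _ _ _

theorem E_zero : E 0 = 1 := AddChar.map_zero_eq_one _

theorem E_conj (a : ZMod 32) : conj (E a) = E (-a) := (AddChar.map_neg_eq_conj _ _).symm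

theorem E_inj : Function.Injective E := ZMod.injective_stdAddChar

/-- additive on a subgroup -/
def AddOn {G : Type} [Group G] (H : Subgroup G) (u : G → ZMod 32) : Prop :=
  ∀ a ∈ H, ∀ b ∈ H, u (a * b) = u a + u b

theorem AddOn.one {G : Type} [Group G] {H : Subgroup G} {u : G → ZMod 32} (h : AddOn H u) :
    u 1 = 0 := by
  have := h 1 H.one_mem 1 H.one_mem
  rw [one_mul] at this
  exact left_eq_add.mp this

open Classical in
/-- a linear character of a subgroup, extended by zero -/
noncomputable def lin {G : Type} [Group G] (H : Subgroup G) (u : G → ZMod 32) (g : G) : ℂ :=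
  if g ∈ H then E (u g) else 0

open Classical in
theorem sum_subgroup {G : Type} [Group G] [Fintype G] (H : Subgroup G) (F : G → ℂ) :
    ∑ g, (if g ∈ H then F g else 0) = ∑ h : H, F h := by
  rw [← Finset.sum_filter]
  exact Finset.sum_subtype _ (by simp) F

theorem ip_lin_ne {G : Type} [Group G] [Fintype G] {H K : Subgroup G} {u v : G → ZMod 32}
    (hu : AddOn H u) (hv : AddOn K v) (g : G) (h1 : g ∈ H) (h2 : g ∈ K) (hne : u g ≠ v g) :
    ip (lin H u) (lin K v) = 0 := by
  classical
  let f : ↥(H ⊓ K) →* ℂ :=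
    { toFun := fun x => E (v x - u x)
      map_one' := by simp [hu.one, hv.one, E_zero]
      map_mul' := by
        intro a b
        rw [← E_add, Subgroup.coe_mul, hu _ a.2.1 _ b.2.1, hv _ a.2.2 _ b.2.2]
        congr 1; ring }
  have hf : f ≠ 1 := by
    intro h
    have : f ⟨g, ⟨h1, h2⟩⟩ = 1 := by rw [h]; rfl
    rw [← E_zero] at this
    have := E_inj this
    exact hne (sub_eq_zero.mp this).symm
  have h0 := sum_hom_units_eq_zero f hf
  rw [← h0]
  have := sum_subgroup (H ⊓ K) (fun x => E (v x - u x))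
  refine Eq.trans ?_ (this.trans ?_)
  · refine Finset.sum_congr rfl fun x _ => ?_
    by_cases a : x ∈ H <;> by_cases b : x ∈ K <;> simp [lin, a, b]
    rw [E_conj, ← E_add]; congr 1; ring
  · congr!

theorem ip_lin_self {G : Type} [Group G] [Fintype G] (H : Subgroup G) (u : G → ZMod 32) :
    ip (lin H u) (lin H u) = Nat.card H := by
  classical
  have := sum_subgroup H (fun _ => 1)
  rw [Finset.sum_const, Finset.card_univ, nsmul_eq_mul, mul_one, ← Nat.card_eq_fintype_card]
    at this
  rw [← this]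
  refine Finset.sum_congr rfl fun x _ => ?_
  by_cases a : x ∈ H <;> simp [lin, a]
  rw [E_conj, ← E_add, neg_add_cancel, E_zero]

theorem ip_lin_char {G : Type} [Group G] [Fintype G] {H : Subgroup G} {u : G → ZMod 32}
    (hu : AddOn H u) (V : FDRep ℂ G) : ∃ m : ℕ, ip (lin H u) V.character = (Nat.card H : ℂ) * m := by
  classical
  let l : H →* ℂ :=
    { toFun := fun x => E (-u x)
      map_one' := by simp [hu.one, E_zero]
      map_mul' := by
        intro a b
        rw [← E_add, Subgroup.coe_mul, hu _ a.2 _ b.2]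
        congr 1; ring }
  obtain ⟨m, hm⟩ := nat_avg V H.subtype l
  refine ⟨m, ?_⟩
  rw [Nat.card_eq_fintype_card, ← hm]
  have := sum_subgroup H (fun x => E (-u x) * V.character x)
  refine Eq.trans ?_ (this.trans ?_)
  · refine Finset.sum_congr rfl fun x _ => ?_
    by_cases a : x ∈ H <;> simp [lin, a, E_conj]
  · congr!

theorem ip_lin_conj {G : Type} [Group G] [Fintype G] {H : Subgroup G} (hH : H.Normal)
    {u v : G → ZMod 32} (x : G) (h : ∀ g ∈ H, v g = u (x * g * x⁻¹)) (V : FDRep ℂ G) :
    ip (lin H v) V.character = ip (lin H u) V.character := by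
  unfold ip
  rw [← Equiv.sum_comp (MulAut.conj x).toEquiv (fun g => conj (lin H u g) * V.character g)]
  refine Finset.sum_congr rfl fun g _ => ?_
  simp only [MulEquiv.toEquiv_eq_coe, EquivLike.coe_coe, MulAut.conj_apply, FDRep.char_conj]
  by_cases a : g ∈ H
  · have b : x * g * x⁻¹ ∈ H := hH.conj_mem g a x
    simp [lin, a, b, h g a]
  · have b : x * g * x⁻¹ ∉ H := fun b => a (by simpa [mul_assoc] using hH.conj_mem _ b x⁻¹)
    simp [lin, a, b]

open IntermediateField in
theorem exists_fixed (k : ℕ) (hk : k.Coprime 32) : ∃ S : IntermediateField ℚ ℂ,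
    ∀ (J : Type) (s : Finset J) (u : J → ZMod 32),
      (∑ j ∈ s, E (u j)) ∈ S ↔ ∑ j ∈ s, E (k * u j) = ∑ j ∈ s, E (u j) := by
  have hpow : ∀ a : ZMod 32, ∀ n : ℕ, E (n * a) = E a ^ n := by
    intro a n
    rw [← nsmul_eq_mul]
    exact AddChar.map_nsmul_eq_pow _ _ _
  have hval : ∀ a : ZMod 32, E a = E 1 ^ a.val := by
    intro a
    rw [← hpow, mul_one, ZMod.natCast_zmod_val]
  have hprim : IsPrimitiveRoot (E 1) 32 := by
    constructor
    · rw [← hpow]
      have : ((32 : ℕ) : ZMod 32) * 1 = 0 := by decide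
      rw [this, E_zero]
    · intro l hl
      rw [← hpow, ← E_zero, mul_one] at hl
      exact (ZMod.natCast_eq_zero_iff l 32).mp (E_inj hl)
  have hprim' : IsPrimitiveRoot (E 1 ^ k) 32 := hprim.pow_of_coprime k hk
  have hint : IsIntegral ℚ (E 1) := (hprim.isIntegral (by norm_num)).tower_top
  have hirr := Polynomial.cyclotomic.irreducible_rat (n := 32) (by norm_num)
  have hroot : E 1 ^ k ∈ (minpoly ℚ (E 1)).aroots ℂ := by
    rw [← hprim.minpoly_eq_cyclotomic_of_irreducible hirr,
      hprim'.minpoly_eq_cyclotomic_of_irreducible hirr]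
    rw [Polynomial.mem_aroots]
    exact ⟨minpoly.ne_zero (hprim'.isIntegral (by norm_num)).tower_top, minpoly.aeval _ _⟩
  let σ := (algHomAdjoinIntegralEquiv ℚ (K := ℂ) hint).symm ⟨_, hroot⟩
  have hσ : σ (AdjoinSimple.gen ℚ (E 1)) = E 1 ^ k :=
    algHomAdjoinIntegralEquiv_symm_apply_gen ℚ hint _
  let S : IntermediateField ℚ ℂ :=
    { carrier := {x | ∃ h : x ∈ ℚ⟮E 1⟯, σ ⟨x, h⟩ = x}
      mul_mem' := by
        rintro a b ⟨ha, ha'⟩ ⟨hb, hb'⟩
        refine ⟨mul_mem ha hb, ?_⟩
        have := map_mul σ ⟨a, ha⟩ ⟨b, hb⟩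
        rw [ha', hb'] at this
        exact this
      add_mem' := by
        rintro a b ⟨ha, ha'⟩ ⟨hb, hb'⟩
        refine ⟨add_mem ha hb, ?_⟩
        have := map_add σ ⟨a, ha⟩ ⟨b, hb⟩
        rw [ha', hb'] at this
        exact this
      algebraMap_mem' := by
        intro r
        exact ⟨IntermediateField.algebraMap_mem _ r, σ.commutes r⟩
      inv_mem' := by
        rintro a ⟨ha, ha'⟩
        refine ⟨inv_mem ha, ?_⟩
        have := map_inv₀ σ ⟨a, ha⟩
        rw [ha'] at this
        exact this }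
  refine ⟨S, fun J s u => ?_⟩
  let w : ℚ⟮E 1⟯ := ∑ j ∈ s, AdjoinSimple.gen ℚ (E 1) ^ (u j).val
  have hw : (w : ℂ) = ∑ j ∈ s, E (u j) := by
    simp only [w]
    push_cast
    exact Finset.sum_congr rfl fun j _ => (hval _).symm
  have hσw : σ w = ∑ j ∈ s, E (k * u j) := by
    simp only [w, map_sum, map_pow, hσ]
    refine Finset.sum_congr rfl fun j _ => ?_
    rw [hpow, hval (u j), ← pow_mul, ← pow_mul, mul_comm]
  rw [← hw, ← hσw]
  constructor
  · rintro ⟨h, h'⟩
    exact h'
  · intro h
    exact ⟨w.2, h⟩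

end Pool.Agent.P.MP_e983f0_al
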