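import Pool.Agent.P.MP_e983f0_al.Grp
import Pool.Agent.P.MP_e983f0_al.Abstract

set_option autoImplicit false

namespace Pool.Agent.P.MP_e983f0_al

open CategoryTheory

/-- doubling map from `ZMod 16` to `ZMod 32` -/
def dbl : ZMod 16 →+ ZMod 32 where
  toFun := fun k => ((2 * k.val : ℕ) : ZMod 32)
  map_zero' := by decide
  map_add' := by decide +kernel

theorem dbl_nat (n : ℕ) : dbl (n : ZMod 16) = ((2 * n : ℕ) : ZMod 32) := by
  induction n with
  | zero => simp
  | succ n ih =>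
    rw [Nat.cast_succ, map_add, ih]
    have : dbl 1 = 2 := by decide
    rw [this]; push_cast; ring

theorem dbl_inj : ∀ a b : ZMod 16, dbl a = dbl b → a = b := by decide +kernel

theorem dbl_mul (n : ℕ) (a : ZMod 16) : dbl (n * a) = n * dbl a := by
  rw [← nsmul_eq_mul, map_nsmul, nsmul_eq_mul]

theorem fib_lt (j : ℕ) : fib j < 53 := Nat.mod_lt _ (by norm_num)
theorem bs_lt (j : ℕ) : bs j < 136 := Nat.mod_lt _ (by norm_num)
theorem pi_lt (t j : ℕ) : pi t j < 136 := Nat.mod_lt _ (by norm_num)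
theorem rho_lt (t j : ℕ) : rho t j < 53 := Nat.mod_lt _ (by norm_num)
theorem xs_lt (j : ℕ) : xs j < 32 := Nat.mod_lt _ (by norm_num)
theorem al_lt (j : ℕ) : al j < 16 := Nat.mod_lt _ (by norm_num)
theorem ph_lt (j q : ℕ) : ph j q < 32 := Nat.mod_lt _ (by norm_num)

def fibF (j : Fin 136) : Fin 53 := ⟨fib j, fib_lt _⟩
def bsF (i : Fin 53) : Fin 136 := ⟨bs i, bs_lt _⟩
def piF (t : Fin 4) (j : Fin 136) : Fin 136 := ⟨pi t j, pi_lt _ _⟩
def rhoF (t : Fin 4) (i : Fin 53) : Fin 53 := ⟨rho t i, rho_lt _ _⟩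

/-- the inducing subgroups -/
def HH (i : Fin 53) : Subgroup G := sub (mask i) (allB_spec chk_mask i i.2)

theorem mem_HH {i : Fin 53} {g : G} : g ∈ HH i ↔ bit (mask i) g.q = true := Iff.rfl

/-- the exponents of the linear characters -/
def mu (j : Fin 136) (g : G) : ZMod 32 := dbl (al j * g.k) + ph j g.q

theorem mu_add (j : Fin 136) : AddOn (HH (fibF j)) (mu j) := by
  intro a ha b hb
  have ha' : bit (mask (fib j)) a.q = true := ha
  have hb' : bit (mask (fib j)) b.q = true := hb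
  have h1 := allB_spec (allB_spec chk_add j j.2) a.q a.q.2
  simp only [ha', Bool.not_true, Bool.false_or, Bool.and_eq_true, Nat.beq_eq] at h1
  have h2 := allB_spec h1.2 b.q b.q.2
  simp only [hb', Bool.not_true, Bool.false_or, Nat.beq_eq] at h2
  have h3 : (al j : ZMod 16) * eps a.q = al j := by
    exact_mod_cast (ZMod.natCast_eq_natCast_iff' _ _ 16).mpr h1.1
  have h4 := (ZMod.natCast_eq_natCast_iff' _ _ 32).mpr h2
  rw [Nat.cast_add, ← dbl_nat] at h4
  push_cast at h4
  simp only [mu, mul_k, mul_q]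
  rw [mul_add, mul_add, map_add, map_add, ← mul_assoc, h3]
  linear_combination h4

theorem mu_conj (j : Fin 136) : fibF (bsF (fibF j)) = fibF j ∧ ∀ g ∈ HH (fibF j),
    mu j g = mu (bsF (fibF j)) (G.mk 0 ⟨xs j, xs_lt _⟩ * g * (G.mk 0 ⟨xs j, xs_lt _⟩)⁻¹) := by
  have h1 := allB_spec chk_conj j j.2
  simp only [Bool.and_eq_true, Nat.beq_eq] at h1
  refine ⟨Fin.ext h1.1.1, fun g hg => ?_⟩
  have hg' : bit (mask (fib j)) g.q = true := hg
  have h2 := allB_spec h1.2 g.q g.q.2
  simp only [hg', Bool.not_true, Bool.false_or, Nat.beq_eq] at h2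
  have h3 : (al j : ZMod 16) = al (bs (fib j)) * eps (xs j) := by
    exact_mod_cast (ZMod.natCast_eq_natCast_iff' _ _ 16).mpr h1.1.2
  have h4 := (ZMod.natCast_eq_natCast_iff' _ _ 32).mpr h2
  rw [Nat.cast_add, Nat.cast_add, ← dbl_nat, ← dbl_nat] at h4
  push_cast at h4
  simp only [mu, mul_k, mul_q, inv_k, inv_q, mk_k, mk_q, bsF, fibF]
  rw [h3]
  have e : (al (bs (fib j)) : ZMod 16) * (0 + eps (xs j) * g.k + ff (xs j) g.q +
      eps (qm (xs j) g.q) * -(eps (qi (xs j)) * 0 + ff (qi (xs j)) (xs j)) +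
      ff (qm (xs j) g.q) (qi (xs j))) = al (bs (fib j)) * eps (xs j) * g.k +
      al (bs (fib j)) * (ff (xs j) g.q + ff (qm (xs j) g.q) (qi (xs j))) -
      al (bs (fib j)) * (eps (qm (xs j) g.q) * ff (qi (xs j)) (xs j)) := by ring
  rw [e, map_sub, map_add]
  linear_combination -h4

theorem mu_ne (j l : Fin 136) (h : j ≠ l) :
    ∃ g, g ∈ HH (fibF j) ∧ g ∈ HH (fibF l) ∧ mu j g ≠ mu l g := by
  have h1 := allB_spec (allB_spec chk_ne j j.2) l l.2
  have hjl : Nat.beq j l = false := by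
    rw [Bool.eq_false_iff]
    intro hh
    exact h (Fin.ext (Nat.eq_of_beq_eq_true hh))
  simp only [hjl, Bool.false_or, Bool.or_eq_true, Bool.not_eq_true'] at h1
  rcases h1 with h1 | h1
  · refine ⟨G.mk 1 0, (HH _).one_mem, (HH _).one_mem, fun hh => ?_⟩
    have a1 := (mu_add j).one
    have a2 := (mu_add l).one
    simp only [mu, one_k, one_q, mul_zero, map_zero, zero_add] at a1 a2
    simp only [mu, mk_k, mk_q, mul_one, Fin.val_zero, a1, a2, add_zero] at hh
    have := (ZMod.natCast_eq_natCast_iff' _ _ 16).mp (dbl_inj _ _ hh)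
    rw [Nat.mod_eq_of_lt (al_lt _), Nat.mod_eq_of_lt (al_lt _)] at this
    rw [this, Nat.beq_refl] at h1
    exact absurd h1 (by simp)
  · obtain ⟨q, hq, h2⟩ := anyB_spec h1
    simp only [Bool.and_eq_true, Bool.not_eq_true'] at h2
    refine ⟨G.mk 0 ⟨q, hq⟩, h2.1.1, h2.1.2, fun hh => ?_⟩
    simp only [mu, mk_k, mk_q, mul_zero, map_zero, zero_add] at hh
    have := (ZMod.natCast_eq_natCast_iff' _ _ 32).mp hh
    rw [Nat.mod_eq_of_lt (ph_lt _ _), Nat.mod_eq_of_lt (ph_lt _ _)] at this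
    rw [this, Nat.beq_refl] at h2
    exact absurd h2.2 (by simp)

theorem gal (t : Fin 4) (j : Fin 136) : pv t (pi t j) = j ∧ fibF (piF t j) = rhoF t (fibF j) ∧
    ∀ g, mu (piF t j) g = kk t * mu j g := by
  have h1 := allB_spec (allB_spec chk_gal t t.2) j j.2
  simp only [Bool.and_eq_true, Nat.beq_eq] at h1
  refine ⟨h1.1.1.1, Fin.ext h1.1.1.2, fun g => ?_⟩
  have h2 := allB_spec h1.2 g.q g.q.2
  simp only [Nat.beq_eq] at h2
  have h3 : (al (pi t j) : ZMod 16) = kk t * al j := by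
    exact_mod_cast (ZMod.natCast_eq_natCast_iff' _ _ 16).mpr h1.1.2
  have h4 : (ph (pi t j) g.q : ZMod 32) = kk t * ph j g.q := by
    exact_mod_cast (ZMod.natCast_eq_natCast_iff' _ _ 32).mpr h2
  simp only [mu, piF]
  rw [h3, h4, mul_assoc, dbl_mul, mul_add]

theorem gal_rho (t : Fin 4) (i : Fin 53) : rv t (rho t i) = i ∧ HH (rhoF t i) = HH i := by
  have h1 := allB_spec (allB_spec chk_rho t t.2) i i.2
  simp only [Bool.and_eq_true, Nat.beq_eq] at h1
  refine ⟨h1.1, ?_⟩
  ext g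
  rw [mem_HH, mem_HH]
  show bit (mask (rho t i)) g.q = true ↔ _
  rw [h1.2]

theorem piF_bij (t : Fin 4) : Function.Bijective (piF t) := by
  rw [← Finite.injective_iff_bijective]
  intro a b h
  have : pi t a = pi t b := congrArg Fin.val h
  exact Fin.ext (by rw [← (gal t a).1, this, (gal t b).1])

theorem rhoF_inj (t : Fin 4) : Function.Injective (rhoF t) := by
  intro a b h
  have : rho t a = rho t b := congrArg Fin.val h
  exact Fin.ext (by rw [← (gal_rho t a).1, this, (gal_rho t b).1])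

def fiber (i : Fin 53) : Finset (Fin 136) := Finset.univ.filter fun j => fibF j = i

theorem fiber_card : ∀ i : Fin 53, (fiber i).card = dd i ∧ dd i * (16 * cnt (mask i)) = 512 := by
  decide +kernel

theorem dd_sum : ∑ i : Fin 53, dd i ^ 2 = 512 := by decide +kernel

/-- the irreducible characters -/
noncomputable def psi (i : Fin 53) : G → ℂ := ∑ j ∈ fiber i, lin (HH i) (mu j)

theorem mem_fiber {i : Fin 53} {j : Fin 136} : j ∈ fiber i ↔ fibF j = i := by simp [fiber]

theorem card_HH (i : Fin 53) : (dd i : ℂ) * Nat.card (HH i) = Fintype.card G := by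
  rw [card_G, HH, card_sub]
  exact_mod_cast (fiber_card i).2

theorem psi_orth (i i' : Fin 53) :
    ip (psi i) (psi i') = if i = i' then (Fintype.card G : ℂ) else 0 := by
  have key : ∀ j ∈ fiber i, ∀ l ∈ fiber i', ip (lin (HH i) (mu j)) (lin (HH i') (mu l)) =
      if j = l then (Nat.card (HH i) : ℂ) else 0 := by
    intro j hj l hl
    rw [mem_fiber] at hj hl
    subst hj hl
    split_ifs with h
    · subst h
      exact ip_lin_self _ _
    · obtain ⟨g, h1, h2, h3⟩ := mu_ne j l h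
      exact ip_lin_ne (mu_add j) (mu_add l) g h1 h2 h3
  unfold psi
  rw [ip_sum_left]
  simp only [ip_sum_right]
  rw [Finset.sum_congr rfl fun j hj => Finset.sum_congr rfl fun l hl => key j hj l hl]
  simp only [Finset.sum_ite_eq]
  split_ifs with h
  · subst h
    rw [Finset.sum_congr rfl fun j hj => if_pos hj, Finset.sum_const, (fiber_card i).1,
      nsmul_eq_mul, card_HH]
  · refine Finset.sum_eq_zero fun j hj => if_neg fun hl => h ?_
    rw [mem_fiber] at hj hl
    rw [← hj, ← hl]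

theorem psi_one (i : Fin 53) : psi i 1 = dd i := by
  unfold psi
  rw [Finset.sum_apply, ← (fiber_card i).1, Finset.card_eq_sum_ones]
  push_cast
  refine Finset.sum_congr rfl fun j _ => ?_
  rw [lin, if_pos (HH i).one_mem, (mu_add j).one, E_zero]

theorem psi_int (V : FDRep ℂ G) (i : Fin 53) :
    ∃ m : ℕ, ip (psi i) V.character = (Fintype.card G : ℂ) * m := by
  have hne : (fiber i).Nonempty := by
    rw [← Finset.card_pos, (fiber_card i).1]
    have := (fiber_card i).2
    rcases Nat.eq_zero_or_pos (dd i) with h | h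
    · rw [h] at this; omega
    · exact h
  obtain ⟨j0, hj0⟩ := hne
  rw [mem_fiber] at hj0
  have hb : fibF (bsF i) = i := by rw [← hj0]; exact (mu_conj j0).1
  have hadd : AddOn (HH i) (mu (bsF i)) := by
    have := mu_add (bsF i)
    rwa [hb] at this
  obtain ⟨m, hm⟩ := ip_lin_char hadd V
  refine ⟨m, ?_⟩
  unfold psi
  rw [ip_sum_left, Finset.sum_congr rfl (g := fun _ => (Nat.card (HH i) : ℂ) * m),
    Finset.sum_const, (fiber_card i).1, nsmul_eq_mul, ← mul_assoc, card_HH]
  intro j hj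
  rw [mem_fiber] at hj
  subst hj
  rw [← hm]
  exact ip_lin_conj (sub_normal _ _) _ (mu_conj j).2 V

theorem irr_mem {χ : G → ℂ} (h : χ ∈ Irr G) : ∃ i, χ = psi i := by
  obtain ⟨V, hV, rfl⟩ := h
  exact mem_family psi (fun i => dd i) psi_orth psi_one (by rw [card_G]; exact dd_sum) V
    (psi_int V)

theorem psi_inj : Function.Injective psi := by
  intro a b h
  by_contra hne
  have h1 := psi_orth a b
  rw [if_neg hne, ← h, psi_orth, if_pos rfl, card_G] at h1
  norm_num at h1

theorem psi_apply (i : Fin 53) (g : G) (hg : g ∈ HH i) :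
    psi i g = ∑ j ∈ fiber i, E (mu j g) := by
  unfold psi
  rw [Finset.sum_apply]
  exact Finset.sum_congr rfl fun j _ => by rw [lin, if_pos hg]

theorem psi_zero (i : Fin 53) (g : G) (hg : g ∉ HH i) : psi i g = 0 := by
  unfold psi
  rw [Finset.sum_apply]
  exact Finset.sum_eq_zero fun j _ => by rw [lin, if_neg hg]

theorem psi_gal (t : Fin 4) (i : Fin 53) (g : G) (hg : g ∈ HH i) :
    psi (rhoF t i) g = ∑ j ∈ fiber i, E (kk t * mu j g) := by
  rw [psi_apply _ _ (by rw [(gal_rho t i).2]; exact hg)]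
  symm
  refine Finset.sum_bijective (piF t) (piF_bij t) (fun j => ?_) (fun j _ => ?_)
  · rw [mem_fiber, mem_fiber, (gal t j).2.1]
    exact (rhoF_inj t).eq_iff.symm
  · rw [(gal t j).2.2]

theorem field_le (t : Fin 4) : ∃ S : IntermediateField ℚ ℂ, ∀ i : Fin 53,
    fieldOfValues (psi i) ≤ S ↔ rhoF t i = i := by
  have hk : ∀ t : Fin 4, (kk t).Coprime 32 := by decide +kernel
  obtain ⟨S, hS⟩ := exists_fixed (kk t) (hk t)
  refine ⟨S, fun i => ?_⟩
  rw [fieldOfValues, IntermediateField.adjoin_le_iff, Set.range_subset_iff, ← psi_inj.eq_iff,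
    funext_iff]
  refine forall_congr' fun g => ?_
  by_cases hg : g ∈ HH i
  · rw [psi_gal t i g hg, psi_apply i g hg]
    exact hS _ _ _
  · rw [psi_zero i g hg, psi_zero _ g (by rw [(gal_rho t i).2]; exact hg)]
    simp

theorem lab_count : ∀ i : Fin 53, (Finset.univ.filter fun i' : Fin 53 =>
    ∀ t : Fin 4, (rhoF t i' = i' ↔ rhoF t i = i)).card ≤ 8 := by
  decide +kernel

theorem fieldMult_le : fieldMult G ≤ 8 := by
  refine iSup_le fun F => ?_
  rcases Set.eq_empty_or_nonempty {χ | χ ∈ Irr G ∧ fieldOfValues χ = F} with h | ⟨χ, h1, h2⟩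
  · rw [h]; simp
  · obtain ⟨i, rfl⟩ := irr_mem h1
    let s := Finset.univ.filter fun i' : Fin 53 => ∀ t : Fin 4, (rhoF t i' = i' ↔ rhoF t i = i)
    have hsub : {χ | χ ∈ Irr G ∧ fieldOfValues χ = F} ⊆ psi '' (s : Set (Fin 53)) := by
      rintro χ ⟨h3, h4⟩
      obtain ⟨i', rfl⟩ := irr_mem h3
      refine ⟨i', ?_, rfl⟩
      simp only [s, Finset.coe_filter, Finset.mem_univ, true_and, Set.mem_ofPred_eq]
      intro t
      obtain ⟨S, hS⟩ := field_le t
      rw [← hS, ← hS, h4, h2]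
    refine (Set.encard_le_encard hsub).trans ((Set.encard_image_le _ _).trans ?_)
    rw [Set.encard_coe_eq_coe_finsetCard]
    exact_mod_cast lab_count i

end Pool.Agent.P.MP_e983f0_al
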