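import Mathlib

set_option autoImplicit false

namespace Pool.Agent.P.MP_e983f0_al

open CategoryTheory

/-- The set of complex irreducible characters of `G`: the characters of the simple
finite-dimensional complex representations. -/
def Irr (G : Type) [Group G] : Set (G → ℂ) :=
  {χ | ∃ V : FDRep ℂ G, Simple V ∧ V.character = χ}

/-- The field of values of a function `χ : G → ℂ`, generated over the rationals by its values. -/
noncomputable def fieldOfValues {G : Type} (χ : G → ℂ) : IntermediateField ℚ ℂ :=
  IntermediateField.adjoin ℚ (Set.range χ)

/-- `f(G)`: the largest number of irreducible characters of `G` sharing one field of values. -/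
noncomputable def fieldMult (G : Type) [Group G] : ℕ∞ :=
  ⨆ F : IntermediateField ℚ ℂ, {χ | χ ∈ Irr G ∧ fieldOfValues χ = F}.encard

/-- A chief series `G = N 0 > N 1 > ... > N r = 1` with `r` factors: every term is normal in `G`,
and no normal subgroup of `G` lies strictly between two consecutive terms. -/
def IsChiefSeries {G : Type} [Group G] (r : ℕ) (N : Fin (r + 1) → Subgroup G) : Prop :=
  N 0 = ⊤ ∧ N (Fin.last r) = ⊥ ∧ (∀ i, (N i).Normal) ∧
    ∀ i : Fin r, N i.succ < N i.castSucc ∧
      ∀ M : Subgroup G, M.Normal → N i.succ ≤ M → M ≤ N i.castSucc →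
        M = N i.succ ∨ M = N i.castSucc

end Pool.Agent.P.MP_e983f0_al
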