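import Pool.Agent.P.MP_e983f0_al.Data
import Pool.Agent.P.MP_e983f0_al.Defs

set_option autoImplicit false

namespace Pool.Agent.P.MP_e983f0_al

theorem qm_lt (a b : ℕ) : qm a b < 32 := Nat.mod_lt _ (by norm_num)
theorem qi_lt (a : ℕ) : qi a < 32 := Nat.mod_lt _ (by norm_num)

theorem f_assoc (a b c : Fin 32) : qm (qm a b) c = qm a (qm b c) ∧
    ((ff a b : ZMod 16) + ff (qm a b) c = eps a * ff b c + ff a (qm b c)) := by
  have := allB_spec (allB_spec (allB_spec chk_assoc a a.2) b b.2) c c.2
  simp only [Bool.and_eq_true, Nat.beq_eq] at this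
  refine ⟨this.1, ?_⟩
  have h := (ZMod.natCast_eq_natCast_iff' _ _ 16).mpr this.2
  exact_mod_cast h

theorem f_eps (a b : Fin 32) : (eps (qm a b) : ZMod 16) = eps a * eps b := by
  have := allB_spec (allB_spec chk_eps a a.2) b b.2
  simp only [Nat.beq_eq] at this
  have h := (ZMod.natCast_eq_natCast_iff' _ _ 16).mpr this
  exact_mod_cast h

theorem f_one (a : Fin 32) : ff 0 a = 0 ∧ ff a 0 = 0 ∧ qm 0 a = a ∧ qm a 0 = a ∧
    qm (qi a) a = 0 := by
  have := allB_spec chk_one a a.2
  simp only [Bool.and_eq_true, Nat.beq_eq] at this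
  tauto

theorem eps_zero : eps 0 = 1 := rfl

/-- the group of order 512 -/
def G : Type := ZMod 16 × Fin 32

instance : Fintype G := inferInstanceAs (Fintype (ZMod 16 × Fin 32))
instance : DecidableEq G := inferInstanceAs (DecidableEq (ZMod 16 × Fin 32))

def G.mk (k : ZMod 16) (q : Fin 32) : G := (k, q)
def G.k (g : G) : ZMod 16 := Prod.fst g
def G.q (g : G) : Fin 32 := Prod.snd g

theorem G.ext {a b : G} (h1 : a.k = b.k) (h2 : (a.q : ℕ) = b.q) : a = b :=
  Prod.ext h1 (Fin.ext h2)

instance : Mul G := ⟨fun a b => G.mk (a.k + eps a.q * b.k + ff a.q b.q) ⟨qm a.q b.q, qm_lt _ _⟩⟩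
instance : One G := ⟨G.mk 0 0⟩
instance : Inv G :=
  ⟨fun a => G.mk (-(eps (qi a.q) * a.k + ff (qi a.q) a.q)) ⟨qi a.q, qi_lt _⟩⟩

theorem mul_k (a b : G) : (a * b).k = a.k + eps a.q * b.k + ff a.q b.q := rfl
theorem mul_q (a b : G) : ((a * b).q : ℕ) = qm a.q b.q := rfl
theorem one_k : (1 : G).k = 0 := rfl
theorem one_q : ((1 : G).q : ℕ) = 0 := rfl
theorem inv_k (a : G) : a⁻¹.k = -(eps (qi a.q) * a.k + ff (qi a.q) a.q) := rfl
theorem inv_q (a : G) : (a⁻¹.q : ℕ) = qi a.q := rfl
theorem mk_k (k : ZMod 16) (q : Fin 32) : (G.mk k q).k = k := rfl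
theorem mk_q (k : ZMod 16) (q : Fin 32) : (G.mk k q).q = q := rfl

instance : Group G := Group.ofLeftAxioms
  (by
    intro a b c
    apply G.ext
    · simp only [mul_k, mul_q]
      have h1 := (f_assoc a.q b.q c.q).2
      have h2 := f_eps a.q b.q
      linear_combination h1 + c.k * h2
    · simp only [mul_q]
      exact (f_assoc a.q b.q c.q).1)
  (by
    intro a
    apply G.ext
    · simp only [mul_k, one_k, one_q, (f_one a.q).1, eps_zero]
      simp
    · simp only [mul_q, one_q, (f_one a.q).2.2.1])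
  (by
    intro a
    apply G.ext
    · simp only [mul_k, one_k, inv_k, inv_q]
      ring
    · simp only [mul_q, one_q, inv_q, (f_one a.q).2.2.2.2])

theorem card_G : Fintype.card G = 512 := by
  show Fintype.card (ZMod 16 × Fin 32) = 512
  simp

theorem subOK_spec {m : ℕ} (h : subOK m = true) : bit m 0 = true ∧ ∀ a : Fin 32, bit m a = true →
    bit m (qi a) = true ∧ ∀ b : Fin 32, (bit m b = true → bit m (qm a b) = true) ∧
      bit m (qm (qm b a) (qi b)) = true := by
  simp only [subOK, Bool.and_eq_true] at h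
  refine ⟨h.1, fun a ha => ?_⟩
  have h1 := allB_spec h.2 a a.2
  simp only [ha, Bool.not_true, Bool.false_or, Bool.and_eq_true] at h1
  refine ⟨h1.1, fun b => ?_⟩
  have h2 := allB_spec h1.2 b b.2
  simp only [Bool.and_eq_true] at h2
  refine ⟨fun hb => ?_, h2.2⟩
  simpa [hb] using h2.1

/-- the subgroup given by a bit mask on the quotient of order 32 -/
def sub (m : ℕ) (h : subOK m = true) : Subgroup G where
  carrier := {g | bit m g.q = true}
  mul_mem' := fun {a b} ha hb => (((subOK_spec h).2 a.q ha).2 b.q).1 hb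
  one_mem' := (subOK_spec h).1
  inv_mem' := fun {a} ha => ((subOK_spec h).2 a.q ha).1

theorem mem_sub {m : ℕ} {h : subOK m = true} {g : G} : g ∈ sub m h ↔ bit m g.q = true := Iff.rfl

theorem sub_normal (m : ℕ) (h : subOK m = true) : (sub m h).Normal :=
  ⟨fun a ha b => (((subOK_spec h).2 a.q ha).2 b.q).2⟩

def cnt (m : ℕ) : ℕ := (Finset.univ.filter fun q : Fin 32 => bit m q = true).card

theorem card_sub (m : ℕ) (h : subOK m = true) : Nat.card (sub m h) = 16 * cnt m := by
  let e : sub m h ≃ ZMod 16 × {q : Fin 32 // bit m q = true} :=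
    { toFun := fun g => (g.1.k, ⟨g.1.q, g.2⟩)
      invFun := fun x => ⟨G.mk x.1 x.2.1, x.2.2⟩
      left_inv := fun _ => rfl
      right_inv := fun _ => rfl }
  rw [Nat.card_congr e, Nat.card_prod, Nat.card_zmod, Nat.card_eq_fintype_card,
    Fintype.card_subtype, cnt]

theorem conjB (x a : G) (ha : (a.q : ℕ) = 0) :
    (x * a * x⁻¹).k = eps x.q * a.k ∧ ((x * a * x⁻¹).q : ℕ) = 0 := by
  have : x * a = G.mk (eps x.q * a.k) 0 * x := by
    apply G.ext
    · simp only [mul_k, mk_k, mk_q, ha, Fin.val_zero, (f_one x.q).1, (f_one x.q).2.1, eps_zero]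
      simp [add_comm]
    · simp only [mul_q, mk_q, ha, Fin.val_zero, (f_one x.q).2.2.1, (f_one x.q).2.2.2.1]
  rw [this, mul_inv_cancel_right]
  exact ⟨rfl, rfl⟩

/-- subgroups of the cyclic normal subgroup of order 16 -/
def subB (c : ZMod 16) : Subgroup G where
  carrier := {g | (g.q : ℕ) = 0 ∧ c * g.k = 0}
  mul_mem' := by
    rintro a b ⟨h1, h2⟩ ⟨h3, h4⟩
    constructor
    · rw [mul_q, h1, h3]; exact (f_one 0).2.2.1
    · rw [mul_k, h1, h3, eps_zero]
      have : ff 0 0 = 0 := (f_one 0).1
      rw [this]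
      push_cast
      linear_combination h2 + h4
  one_mem' := ⟨rfl, by rw [one_k, mul_zero]⟩
  inv_mem' := by
    rintro a ⟨h1, h2⟩
    have h0 : qi 0 = 0 := by decide +kernel
    constructor
    · rw [inv_q, h1, h0]
    · rw [inv_k, h1, h0, eps_zero]
      have : ff 0 0 = 0 := (f_one 0).1
      rw [this]
      push_cast
      linear_combination -h2

theorem subB_normal (c : ZMod 16) : (subB c).Normal := by
  constructor
  rintro a ⟨h1, h2⟩ x
  refine ⟨(conjB x a h1).2, ?_⟩
  rw [(conjB x a h1).1]
  linear_combination (eps x.q : ZMod 16) * h2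

theorem card_subB (c : ZMod 16) :
    Nat.card (subB c) = (Finset.univ.filter fun k : ZMod 16 => c * k = 0).card := by
  let e : subB c ≃ {k : ZMod 16 // c * k = 0} :=
    { toFun := fun g => ⟨g.1.k, g.2.2⟩
      invFun := fun x => ⟨G.mk x.1 0, rfl, x.2⟩
      left_inv := fun g => Subtype.ext (G.ext rfl g.2.1.symm)
      right_inv := fun _ => rfl }
  rw [Nat.card_congr e, Nat.card_eq_fintype_card, Fintype.card_subtype]

theorem step {Γ : Type} [Group Γ] [Finite Γ] {A B : Subgroup Γ} (hle : A ≤ B)
    (hc : Nat.card B = 2 * Nat.card A) :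
    A < B ∧ ∀ M : Subgroup Γ, M.Normal → A ≤ M → M ≤ B → M = A ∨ M = B := by
  have hA : 0 < Nat.card A := Nat.card_pos
  constructor
  · refine lt_of_le_of_ne hle fun h => ?_
    rw [h] at hc
    rw [h] at hA
    omega
  · intro M _ h1 h2
    obtain ⟨t, ht⟩ := Subgroup.card_dvd_of_le h1
    have h3 := Subgroup.card_dvd_of_le h2
    rw [hc, ht, mul_comm 2] at h3
    have h4 : t ∣ 2 := Nat.dvd_of_mul_dvd_mul_left hA h3
    rcases (Nat.dvd_prime Nat.prime_two).mp h4 with h5 | h5
    · left
      exact (Subgroup.eq_of_le_of_card_ge h1 (by rw [ht, h5, mul_one])).symm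
    · right
      exact Subgroup.eq_of_le_of_card_ge h2 (by rw [hc, ht, h5, mul_comm])

theorem sub_le {m m' : ℕ} {h : subOK m = true} {h' : subOK m' = true}
    (hh : ∀ q : Fin 32, bit m q = true → bit m' q = true) : sub m h ≤ sub m' h' :=
  fun g hg => hh g.q hg

theorem subB_le (c c' : ZMod 16) (hh : ∀ k : ZMod 16, c * k = 0 → c' * k = 0) :
    subB c ≤ subB c' := fun _ hg => ⟨hg.1, hh _ hg.2⟩

theorem ok0 : subOK 0xffffffff = true := by decide +kernel
theorem ok1 : subOK 0xffff = true := by decide +kernel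
theorem ok2 : subOK 0x5555 = true := by decide +kernel
theorem ok3 : subOK 0x505 = true := by decide +kernel
theorem ok4 : subOK 0x101 = true := by decide +kernel

/-- the chief series -/
def chain : Fin 10 → Subgroup G :=
  ![sub _ ok0, sub _ ok1, sub _ ok2, sub _ ok3, sub _ ok4, subB 0, subB 8, subB 4, subB 2, subB 1]

theorem chain_chief : IsChiefSeries 9 chain := by
  refine ⟨?_, ?_, ?_, ?_⟩
  · show sub _ ok0 = ⊤
    rw [eq_top_iff]
    intro g _
    have : ∀ q : Fin 32, bit 0xffffffff q = true := by decide +kernel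
    exact this g.q
  · show subB 1 = ⊥
    rw [eq_bot_iff]
    rintro g ⟨h1, h2⟩
    rw [Subgroup.mem_bot]
    exact G.ext (by rw [one_k]; simpa using h2) h1
  · intro i
    fin_cases i
    · exact sub_normal _ ok0
    · exact sub_normal _ ok1
    · exact sub_normal _ ok2
    · exact sub_normal _ ok3
    · exact sub_normal _ ok4
    · exact subB_normal 0
    · exact subB_normal 8
    · exact subB_normal 4
    · exact subB_normal 2
    · exact subB_normal 1
  · intro i
    fin_cases i
    · exact step (A := sub _ ok1) (B := sub _ ok0) (sub_le (by decide +kernel))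
        (by rw [card_sub, card_sub]; decide +kernel)
    · exact step (A := sub _ ok2) (B := sub _ ok1) (sub_le (by decide +kernel))
        (by rw [card_sub, card_sub]; decide +kernel)
    · exact step (A := sub _ ok3) (B := sub _ ok2) (sub_le (by decide +kernel))
        (by rw [card_sub, card_sub]; decide +kernel)
    · exact step (A := sub _ ok4) (B := sub _ ok3) (sub_le (by decide +kernel))
        (by rw [card_sub, card_sub]; decide +kernel)
    · refine step (A := subB 0) (B := sub _ ok4) ?_
        (by rw [card_sub, card_subB]; decide +kernel)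
      rintro g ⟨h1, _⟩
      rw [mem_sub, h1]
      decide +kernel
    · exact step (A := subB 8) (B := subB 0) (subB_le _ _ (by decide +kernel))
        (by rw [card_subB, card_subB]; decide +kernel)
    · exact step (A := subB 4) (B := subB 8) (subB_le _ _ (by decide +kernel))
        (by rw [card_subB, card_subB]; decide +kernel)
    · exact step (A := subB 2) (B := subB 4) (subB_le _ _ (by decide +kernel))
        (by rw [card_subB, card_subB]; decide +kernel)
    · exact step (A := subB 1) (B := subB 2) (subB_le _ _ (by decide +kernel))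
        (by rw [card_subB, card_subB]; decide +kernel)

end Pool.Agent.P.MP_e983f0_al
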